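import Pool.Agent.MP_3e5dca_al.H53.Asm
import Pool.Agent.MP_3e5dca_al.H53.Three
import Pool.Agent.MP_3e5dca_al.H53.Uni
import Pool.Agent.MP_3e5dca_al.H53.FamJ
import Pool.Agent.MP_3e5dca_al.H53.Imp
import Pool.Agent.MP_3e5dca_al.H53.Alt
import Pool.Agent.MP_3e5dca_al.H53.Real

/-! The base size set of the symmetric group of degree at least 100000. -/

open Pool.Agent.MP_3e5dca_al.H53 in
theorem Pool.Agent.Results.MP_3e5dca_al.BaseSizeSet.result :
    ∀ n : ℕ, 100000 ≤ n → ∀ b : ℕ,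
      ((∃ (X : Type) (_ : Finite X) (_ : MulAction (Equiv.Perm (Fin n)) X),
        FaithfulSMul (Equiv.Perm (Fin n)) X ∧
        IsLeast {m : ℕ | ∃ B : Finset X, B.card = m ∧
          ∀ g : Equiv.Perm (Fin n), (∀ x ∈ B, g • x = x) → g = 1} b) ↔
      ∃ j : ℕ, 2 ≤ j ∧
        (b = ⌈2 * ((n : ℚ) - 1) / (j : ℚ)⌉₊ ∨ b = ⌈2 * ((n : ℚ) - 2) / (j : ℚ)⌉₊)) :=
  fun n hn b => main_of bochert two_bound uni_bound fam_of_min fam_of_imp jordan typ_of_lift
    real0 real1 real2 n hn b
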